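import Pool.Agent.R165.Cof.K

/-!
# Variants of cofin for Borel sigma-ideals: all three strict inequalities are consistent
-/

namespace Pool.Agent.Results.MP_66ab92_lc.CofinVariants

open Set Cardinal Ordinal
open Pool.Agent.R165.Cof

theorem uncountable_Y : Uncountable (ℕ → ℕ → ℕ) := by
  have := uncountable_baire
  exact Function.Injective.uncountable (f := fun (z : ℕ → ℕ) (_ : ℕ) => z)
    fun a b h => congrFun h 0

theorem uncountable_cantor : Uncountable (ℕ → Bool) := by
  rw [uncountable_iff_forall_not_surjective]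
  intro f hf
  obtain ⟨n, hn⟩ := hf fun k => !(f k k)
  have := congrFun hn n
  simp at this

/-- (a), (b): if `𝔟 < 𝔤` (which holds for example in Miller's model) then there are Borel
`σ`-ideals on the Cantor space, containing all singletons, with `cofin* < cofin⁻` and with
`cofin⁻ < cofin`.  (c): the `σ`-ideal of countable sets satisfies `cofin < cofin⁺` (as
`cofin⁺ = ∞`), and if `ℵ₁ < 𝔟` then there is a Borel `σ`-ideal containing all singletons with
`cofin < cofin⁺ < ∞`. -/
theorem result :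
    (bnum < gnum → ∃ I : Set (Set (ℕ → Bool)), IsBorelSigmaIdeal I ∧ (∀ x, {x} ∈ I) ∧
      cofinStar I < cofinMinus I) ∧
    (bnum < gnum → ∃ I : Set (Set (ℕ → Bool)), IsBorelSigmaIdeal I ∧ (∀ x, {x} ∈ I) ∧
      cofinMinus I < cofin I) ∧
    (∃ I : Set (Set (ℕ → Bool)), IsBorelSigmaIdeal I ∧ (∀ x, {x} ∈ I) ∧
      cofin I < cofinPlus I) ∧
    (ℵ₁ < bnum → ∃ I : Set (Set (ℕ → Bool)), IsBorelSigmaIdeal I ∧ (∀ x, {x} ∈ I) ∧
      cofin I < cofinPlus I ∧ cofinPlus I < ⊤) := by
  have hY := uncountable_Y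
  have hC := uncountable_cantor
  refine ⟨fun h => ?_, fun h => ?_, ⟨J4, J4_borel, fun x => countable_singleton x, ?_⟩,
    fun h => ?_⟩
  · let e : (ℕ → ℕ → ℕ) ≃ᵐ (ℕ → Bool) :=
      PolishSpace.measurableEquivOfNotCountable not_countable not_countable
    refine ⟨pull e.toEquiv J1, pull_borel e J1_borel, pull_singleton _ J1_singleton, ?_⟩
    rw [cofinStar_pull, cofinMinus_pull]
    exact J1_lt h
  · let e : (ℕ × (ℕ → ℕ → ℕ)) ≃ᵐ (ℕ → Bool) :=
      PolishSpace.measurableEquivOfNotCountable not_countable not_countable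
    refine ⟨pull e.toEquiv J2, pull_borel e J2_borel, pull_singleton _ J2_singleton, ?_⟩
    rw [cofinMinus_pull, cofin_pull]
    exact J2_lt h
  · rw [J4_plus]
    exact J4_cofin.trans_lt (WithTop.coe_lt_top _)
  · let e : (Bool × (ℕ → ℕ → ℕ)) ≃ᵐ (ℕ → Bool) :=
      PolishSpace.measurableEquivOfNotCountable not_countable not_countable
    refine ⟨pull e.toEquiv J3, pull_borel e J3_borel, pull_singleton _ J3_singleton, ?_⟩
    rw [cofin_pull, cofinPlus_pull]
    exact ⟨J3_lt h, J3_plus⟩

end Pool.Agent.Results.MP_66ab92_lc.CofinVariants
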